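import Mathlib
import Pool.Agent.R774.Cl5

/-! Closing pseudo-orbits whose jumps are along the orbits of a flow. -/

set_option autoImplicit false

open scoped Topology ContDiff Manifold
open Set Metric Filter

noncomputable section

namespace Pool.Agent.K6.H72.FL

open Pool.Agent.H718R2.G Pool.Agent.R774.Cl Pool.Agent.R774.ClStmt Pool.Agent.W564.SC

universe u

/-- `F` maps the `φ`-orbit of `x` to the `φ`-orbit of `F x` by a continuous nondecreasing change of
the time: `F (φ s x) = φ (ψ s) (F x)` for all real `s`. -/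
def OrbitMap {N : Type*} (φ : ℝ → N → N) (F : N → N) (x : N) : Prop :=
  ∃ ψ : ℝ → ℝ, Continuous ψ ∧ Monotone ψ ∧ ψ 0 = 0 ∧ ∀ s, F (φ s x) = φ (ψ s) (F x)

/-- A periodic pseudo-orbit of `F` with jumps along the orbits of the flow `φ`, of times at most `η`, is
closed by one of the maps `φ t ∘ F`, `|t| ≤ η`. -/
theorem close_loop {N : Type*} {φ : ℝ → N → N} (h0 : ∀ x, φ 0 x = x)
    (hadd : ∀ s t x, φ (s + t) x = φ s (φ t x)) {F : N → N} {m : ℕ} {y : ℕ → N} {e : ℕ → ℝ} {η : ℝ}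
    (hη : 0 ≤ η) (hO : ∀ i < m, OrbitMap φ F (y i)) (he : ∀ i < m, |e i| ≤ η)
    (hy : ∀ i < m, y (i + 1) = φ (e i) (F (y i))) (hm : y m = y 0) :
    ∃ t, |t| ≤ η ∧ (fun x => φ t (F x))^[m] (y 0) = y 0 := by
  have hO' : ∀ i, ∃ ψ : ℝ → ℝ, i < m → (Continuous ψ ∧ Monotone ψ ∧ ψ 0 = 0 ∧
      ∀ s, F (φ s (y i)) = φ (ψ s) (F (y i))) := by
    intro i
    by_cases hi : i < m
    · obtain ⟨ψ, h⟩ := hO i hi
      exact ⟨ψ, fun _ => h⟩
    · exact ⟨id, fun h => absurd h hi⟩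
  choose ψ hψ using hO'
  obtain ⟨a, ha0, ha⟩ : ∃ a : ℕ → ℝ → ℝ, (∀ t, a 0 t = 0) ∧
      ∀ i t, a (i + 1) t = t - e i + ψ i (a i t) :=
    ⟨fun i => Nat.rec (fun _ => 0) (fun i b t => t - e i + ψ i (b t)) i, fun _ => rfl,
      fun _ _ => rfl⟩
  have hcont : ∀ i ≤ m, Continuous (a i) := by
    intro i
    induction i with
    | zero => intro _; rw [show a 0 = fun _ => (0 : ℝ) from funext ha0]; exact continuous_const
    | succ i ih =>
      intro hi
      rw [show a (i + 1) = fun t => t - e i + ψ i (a i t) from funext (ha i)]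
      have h1 := (hψ i (by omega)).1
      have h2 := ih (by omega)
      exact (continuous_id.sub continuous_const).add (h1.comp h2)
  have hpos : ∀ i ≤ m, 0 ≤ a i η := by
    intro i
    induction i with
    | zero => intro _; rw [ha0]
    | succ i ih =>
      intro hi
      have h1 := hψ i (by omega)
      have h2 := h1.2.1 (ih (by omega))
      rw [h1.2.2.1] at h2
      have h3 := (abs_le.1 (he i (by omega))).2
      rw [ha]
      linarith
  have hneg : ∀ i ≤ m, a i (-η) ≤ 0 := by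
    intro i
    induction i with
    | zero => intro _; rw [ha0]
    | succ i ih =>
      intro hi
      have h1 := hψ i (by omega)
      have h2 := h1.2.1 (ih (by omega))
      rw [h1.2.2.1] at h2
      have h3 := (abs_le.1 (he i (by omega))).1
      rw [ha]
      linarith
  have hit : ∀ t, ∀ i ≤ m, (fun x => φ t (F x))^[i] (y 0) = φ (a i t) (y i) := by
    intro t i
    induction i with
    | zero => intro _; rw [ha0, h0]; rfl
    | succ i ih =>
      intro hi
      rw [Function.iterate_succ_apply', ih (by omega)]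
      have h1 := (hψ i (by omega)).2.2.2 (a i t)
      have h2 : F (y i) = φ (-(e i)) (y (i + 1)) := by
        rw [hy i (by omega), ← hadd, neg_add_cancel, h0]
      show φ t (F (φ (a i t) (y i))) = _
      rw [h1, h2, ← hadd, ← hadd, ha]
      congr 1
      ring
  obtain ⟨t, ht, hat⟩ : ∃ t ∈ Icc (-η) η, a m t = 0 := by
    have h1 := intermediate_value_Icc (show -η ≤ η by linarith) (hcont m le_rfl).continuousOn
    exact h1 ⟨hneg m le_rfl, hpos m le_rfl⟩
  refine ⟨t, abs_le.2 ht, ?_⟩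
  rw [hit t m le_rfl, hat, h0, hm]

variable {n : ℕ} {N : Type u} [TopologicalSpace N] [ChartedSpace (V n) N]

/-- If the maps `H s` of a family, for arbitrarily small parameters `s`, have periodic points arbitrarily
close to `z`, then `H 0` can be closed at `z`. -/
theorem closable_of_periodic [IsManifold (𝓡 n) ∞ N] [T2Space N] [CompactSpace N] (r : ℕ∞)
    (hr : 1 ≤ r) {P : Type} [NormedAddCommGroup P] [NormedSpace ℝ P] {H : P → DiffM n N r}
    (hH : IsFam n N r H) {z : N}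
    (h : ∀ η : ℝ, 0 < η → ∀ W ∈ 𝓝 z, ∃ s : P, ‖s‖ < η ∧ ∃ y ∈ W, ∃ m : ℕ, 1 ≤ m ∧
      (H s)^[m] y = y) :
    Closable n N r (H 0) z := by
  intro U hU hFU
  obtain ⟨χ, hχ⟩ := Pool.Agent.W699.SC.gc n N z
  obtain ⟨k', _, κ, hκ, hCL⟩ := t_CL n N r hr P H hH χ z hχ U hU hFU
  have hW' : {y : N | y ∈ χ.source ∧ ‖χ y‖ < κ} ∈ 𝓝 z := by
    have h5 : χ.source ∈ 𝓝 z := χ.open_source.mem_nhds hχ.src
    have h6 : ContinuousAt (fun y => ‖χ y‖) z := (χ.continuousAt hχ.src).norm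
    have h7 : ∀ᶠ y in 𝓝 z, ‖χ y‖ < κ := by
      have h8 : ‖χ z‖ < κ := by rw [hχ.zero, norm_zero]; exact hκ
      exact h6.eventually_lt_const h8
    filter_upwards [h5, h7] with y hy1 hy2
    exact ⟨hy1, hy2⟩
  obtain ⟨c, hcκ, y, hy0, m, hm, hper⟩ := h κ hκ _ hW'
  have hpp : Function.IsPeriodicPt (H c) m y := hper
  obtain ⟨p, hp⟩ : ∃ p, p = Function.minimalPeriod (H c) y := ⟨_, rfl⟩
  have hp0 : 0 < p := by
    rw [hp]
    exact hpp.minimalPeriod_pos (by omega)
  have hpfix : (H c)^[p] y = y := by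
    rw [hp]
    exact Function.iterate_minimalPeriod
  have hpne : ∀ i, 0 < i → i < p → (H c)^[i] y ≠ y := by
    intro i hi hip heq
    rw [hp] at hip
    exact Function.not_isPeriodicPt_of_pos_of_lt_minimalPeriod hi.ne' hip heq
  obtain ⟨ρ, hρ0, hρκ, hρ⟩ : ∃ ρ : ℝ, 0 < ρ ∧ ρ < κ ∧ ∀ i < p, 0 < i →
      (H c)^[i] y ∈ χ.source → 2 * ρ ≤ ‖χ ((H c)^[i] y) - χ y‖ := by
    have h1 : ∀ i < p, ∀ᶠ ρ in 𝓝[>] (0:ℝ), (0 < i →
      (H c)^[i] y ∈ χ.source → 2 * ρ ≤ ‖χ ((H c)^[i] y) - χ y‖) := by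
      intro i hip
      by_cases hi : 0 < i
      · by_cases hs : (H c)^[i] y ∈ χ.source
        · have h2 : 0 < ‖χ ((H c)^[i] y) - χ y‖ := by
            rw [norm_pos_iff, sub_ne_zero]
            intro h3
            exact hpne i hi hip (χ.injOn hs hy0.1 h3)
          have h3 : ∀ᶠ ρ in 𝓝[>] (0:ℝ), ρ < ‖χ ((H c)^[i] y) - χ y‖ / 2 :=
            mem_nhdsWithin_of_mem_nhds (gt_mem_nhds (by positivity))
          filter_upwards [h3] with ρ hρ _ _
          linarith
        · exact Eventually.of_forall fun ρ _ h => absurd h hs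
      · exact Eventually.of_forall fun ρ h => absurd h hi
    have h2 : ∀ᶠ ρ in 𝓝[>] (0:ℝ), ∀ i ∈ Finset.range p, (0 < i →
      (H c)^[i] y ∈ χ.source → 2 * ρ ≤ ‖χ ((H c)^[i] y) - χ y‖) := by
      rw [Filter.eventually_all_finset]
      intro i hi
      exact h1 i (Finset.mem_range.1 hi)
    have h3 : ∀ᶠ ρ in 𝓝[>] (0:ℝ), 0 < ρ := eventually_mem_nhdsWithin
    have h4 : ∀ᶠ ρ in 𝓝[>] (0:ℝ), ρ < κ := mem_nhdsWithin_of_mem_nhds (gt_mem_nhds hκ)
    obtain ⟨ρ, h5, h6, h7⟩ := (h2.and (h3.and h4)).exists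
    exact ⟨ρ, h6, h7, fun i hi => h5 i (Finset.mem_range.2 hi)⟩
  refine hCL c y ρ p hcκ hy0.1 hy0.2 hρ0 hρκ hp0 ?_ ?_ ?_
  · rw [hpfix]
    exact hy0.1
  · rw [hpfix, sub_self, norm_zero]
    positivity
  · intro i hi hip hs
    exact hρ i hip hi hs

end Pool.Agent.K6.H72.FL
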