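import Mathlib
import Pool.Agent.K6.H72.FL.Core
import Pool.Agent.TH382.HS.Limit

/-! Diffeomorphisms which map the orbits of an action of `ℝᵏ × 𝕋ˡ` to orbits, monotonically in the
`k` real directions and by translations in the toral directions. -/

set_option autoImplicit false

open scoped Topology ContDiff Manifold
open Set Metric Filter

noncomputable section

namespace Pool.Agent.K6.H72.FL

open Pool.Agent.H718R2.G Pool.Agent.R774.Cl Pool.Agent.R774.ClStmt Pool.Agent.W564.SC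

universe u

/-- `(ψ₁(s₁), …, ψ_k(s_k))` -/
def coordMap {k : ℕ} (ψ : Fin k → ℝ → ℝ) (s : V k) : V k := WithLp.toLp 2 fun j => ψ j (s j)

@[simp] lemma coordMap_apply {k : ℕ} (ψ : Fin k → ℝ → ℝ) (s : V k) (j : Fin k) :
    coordMap ψ s j = ψ j (s j) := rfl

/-- `F` maps the `A`-orbit of `x` to the `A`-orbit of `F x` by
`(s, b) ↦ (ψ₁(s₁), …, ψ_k(s_k), b + c(s))` with continuous nondecreasing functions `ψ_j` of one real
variable, `ψ_j(0) = 0`, and an arbitrary function `c`. -/
def LeafMap {k l : ℕ} {N : Type*} (A : V k × V l → N → N) (F : N → N) (x : N) : Prop :=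
  ∃ (ψ : Fin k → ℝ → ℝ) (c : V k → V l),
    (∀ j, Continuous (ψ j) ∧ Monotone (ψ j) ∧ ψ j 0 = 0) ∧
    ∀ (s : V k) (b : V l), F (A (s, b) x) = A (coordMap ψ s, b + c s) (F x)

/-- all coordinates are integers -/
def Integral {l : ℕ} (b : V l) : Prop := ∀ j, ∃ i : ℤ, b j = i

lemma abs_coord_le {k : ℕ} (s : V k) (j : Fin k) : |s j| ≤ ‖s‖ := by
  have h1 := EuclideanSpace.norm_eq s
  have h2 : ‖s j‖ ^ 2 ≤ ∑ i, ‖s i‖ ^ 2 :=
    Finset.single_le_sum (f := fun i => ‖s i‖ ^ 2) (fun i _ => by positivity) (Finset.mem_univ j)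
  rw [h1, ← Real.norm_eq_abs]
  exact Real.le_sqrt_of_sq_le h2

lemma norm_le_of_coord {k : ℕ} {s : V k} {η : ℝ} (hη : 0 ≤ η) (h : ∀ j, |s j| ≤ η) :
    ‖s‖ ≤ k * η := by
  rw [EuclideanSpace.norm_eq]
  refine Real.sqrt_le_iff.2 ⟨by positivity, ?_⟩
  calc ∑ i, ‖s i‖ ^ 2 ≤ ∑ _i : Fin k, η ^ 2 := Finset.sum_le_sum fun i _ => by
        rw [Real.norm_eq_abs]
        exact pow_le_pow_left₀ (abs_nonneg _) (h i) 2
    _ = k * η ^ 2 := by simp
    _ ≤ (k * η) ^ 2 := by
        rw [mul_pow]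
        have h1 : (k : ℝ) ≤ (k : ℝ) ^ 2 := by
          rcases Nat.eq_zero_or_pos k with h0 | h0
          · simp [h0]
          · have h2 : (1 : ℝ) ≤ k := by exact_mod_cast h0
            nlinarith
        exact mul_le_mul_of_nonneg_right h1 (by positivity)

/-- rational approximation modulo the integers -/
lemma exists_integral_near {l : ℕ} (D : V l) (M q : ℕ) (hM : 1 ≤ M) (hq : 1 ≤ q) :
    ∃ τ : V l, (∀ j, |τ j| ≤ 1 / q) ∧ Integral ((q : ℝ) • ((M : ℝ) • τ + D)) := by
  have hM0 : (0 : ℝ) < M := by exact_mod_cast hM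
  have hM1 : (1 : ℝ) ≤ M := by exact_mod_cast hM
  have hq0 : (0 : ℝ) < q := by exact_mod_cast hq
  refine ⟨WithLp.toLp 2 fun j => ((round (q * D j) : ℝ) / q - D j) / M, fun j => ?_, fun j => ?_⟩
  · have h1 := abs_sub_round (q * D j)
    have h2 : ((round (q * D j) : ℝ) / q - D j) / M = -(q * D j - round (q * D j)) / (q * M) := by
      field_simp
      ring
    show |((round (q * D j) : ℝ) / q - D j) / M| ≤ 1 / q
    rw [h2, abs_div, abs_neg, abs_of_pos (mul_pos hq0 hM0), div_le_div_iff₀ (by positivity) hq0]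
    nlinarith
  · refine ⟨round (q * D j), ?_⟩
    show (q : ℝ) * ((M : ℝ) * (((round (q * D j) : ℝ) / q - D j) / M) + D j) = _
    field_simp
    ring

/-- Closing periodic pseudo-orbits with jumps along the orbits of `A`, small in the real directions. -/
theorem close_leaf_loop {k l : ℕ} {N : Type*} {A : V k × V l → N → N} (h0 : ∀ x, A 0 x = x)
    (hadd : ∀ p q x, A (p + q) x = A p (A q x)) (hint : ∀ b, Integral b → ∀ x, A (0, b) x = x)
    {F : N → N} {m : ℕ} (hm1 : 1 ≤ m)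
    {y : ℕ → N} {e : ℕ → V k × V l} {η : ℝ}
    (hη : 0 < η) (hO : ∀ i < m, LeafMap A F (y i)) (he : ∀ i < m, ‖(e i).1‖ ≤ η)
    (hy : ∀ i < m, y (i + 1) = A (e i) (F (y i))) (hm : y m = y 0) :
    ∃ t : V k × V l, (∀ j, |t.1 j| ≤ η) ∧ (∀ j, |t.2 j| ≤ η) ∧
      ∃ M, 1 ≤ M ∧ (fun x => A t (F x))^[M] (y 0) = y 0 := by
  have hO' : ∀ i, ∃ (ψ : Fin k → ℝ → ℝ) (c : V k → V l), i < m →
      ((∀ j, Continuous (ψ j) ∧ Monotone (ψ j) ∧ ψ j 0 = 0) ∧
      ∀ (s : V k) (b : V l), F (A (s, b) (y i)) = A (coordMap ψ s, b + c s) (F (y i))) := by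
    intro i
    by_cases hi : i < m
    · obtain ⟨ψ, c, h⟩ := hO i hi
      exact ⟨ψ, c, fun _ => h⟩
    · exact ⟨fun _ => id, 0, fun h => absurd h hi⟩
  choose ψ c hψ using hO'
  -- the coordinates
  obtain ⟨a, ha0, ha⟩ : ∃ a : ℕ → Fin k → ℝ → ℝ, (∀ j t, a 0 j t = 0) ∧
      ∀ i j t, a (i + 1) j t = t - (e i).1 j + ψ i j (a i j t) :=
    ⟨fun i => Nat.rec (fun _ _ => 0) (fun i b j t => t - (e i).1 j + ψ i j (b j t)) i,
      fun _ _ => rfl, fun _ _ _ => rfl⟩
  have hcont : ∀ j, ∀ i ≤ m, Continuous (a i j) := by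
    intro j i
    induction i with
    | zero => intro _; rw [show a 0 j = fun _ => (0 : ℝ) from funext (ha0 j)]; exact continuous_const
    | succ i ih =>
      intro hi
      rw [show a (i + 1) j = fun t => t - (e i).1 j + ψ i j (a i j t) from funext (ha i j)]
      have h1 := ((hψ i (by omega)).1 j).1
      have h2 := ih (by omega)
      exact (continuous_id.sub continuous_const).add (h1.comp h2)
  have hpos : ∀ j, ∀ i ≤ m, 0 ≤ a i j η := by
    intro j i
    induction i with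
    | zero => intro _; rw [ha0]
    | succ i ih =>
      intro hi
      have h1 := (hψ i (by omega)).1 j
      have h2 := h1.2.1 (ih (by omega))
      rw [h1.2.2] at h2
      have h3 := (abs_le.1 ((abs_coord_le (e i).1 j).trans (he i (by omega)))).2
      rw [ha]
      linarith
  have hneg : ∀ j, ∀ i ≤ m, a i j (-η) ≤ 0 := by
    intro j i
    induction i with
    | zero => intro _; rw [ha0]
    | succ i ih =>
      intro hi
      have h1 := (hψ i (by omega)).1 j
      have h2 := h1.2.1 (ih (by omega))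
      rw [h1.2.2] at h2
      have h3 := (abs_le.1 ((abs_coord_le (e i).1 j).trans (he i (by omega)))).1
      rw [ha]
      linarith
  have hex : ∀ j, ∃ t ∈ Icc (-η) η, a m j t = 0 := by
    intro j
    have h1 := intermediate_value_Icc (show -η ≤ η by linarith) (hcont j m le_rfl).continuousOn
    exact h1 ⟨hneg j m le_rfl, hpos j m le_rfl⟩
  choose t ht hat using hex
  obtain ⟨T, hT⟩ : ∃ T : V k, ∀ j, T j = t j := ⟨WithLp.toLp 2 t, fun _ => rfl⟩
  obtain ⟨α, hα⟩ : ∃ α : ℕ → V k, ∀ i j, α i j = a i j (t j) :=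
    ⟨fun i => WithLp.toLp 2 fun j => a i j (t j), fun _ _ => rfl⟩
  have hα0 : α 0 = 0 := by
    ext j
    rw [hα, ha0]
    rfl
  have hαm : α m = 0 := by
    ext j
    rw [hα, hat]
    rfl
  have hαs : ∀ i, α (i + 1) = T - (e i).1 + coordMap (ψ i) (α i) := by
    intro i
    ext j
    rw [hα, ha]
    simp [hT, hα]
  obtain ⟨d, hd0, hd⟩ : ∃ d : ℕ → V l, d 0 = 0 ∧ ∀ i, d (i + 1) = d i - (e i).2 + c i (α i) :=
    ⟨fun i => Nat.rec 0 (fun i b => b - (e i).2 + c i (α i)) i, rfl, fun _ => rfl⟩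
  have hit : ∀ (τ b : V l), ∀ i ≤ m, (fun x => A (T, τ) (F x))^[i] (A (0, b) (y 0)) =
      A (α i, b + (i : ℝ) • τ + d i) (y i) := by
    intro τ b i
    induction i with
    | zero => intro _; simp [hα0, hd0]
    | succ i ih =>
      intro hi
      rw [Function.iterate_succ_apply', ih (by omega)]
      have h1 := (hψ i (by omega)).2 (α i) (b + (i : ℝ) • τ + d i)
      have h2 : F (y i) = A (-(e i)) (y (i + 1)) := by
        rw [hy i (by omega), ← hadd, neg_add_cancel, h0]
      show A (T, τ) (F (A (α i, b + (i : ℝ) • τ + d i) (y i))) = _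
      rw [h1, h2, ← hadd, ← hadd, hαs, hd]
      congr 1
      refine Prod.ext ?_ ?_
      · show T + coordMap (ψ i) (α i) + -(e i).1 = T - (e i).1 + coordMap (ψ i) (α i)
        abel
      · show τ + (b + (i : ℝ) • τ + d i + c i (α i)) + -(e i).2 =
          b + ((i + 1 : ℕ) : ℝ) • τ + (d i - (e i).2 + c i (α i))
        push_cast
        rw [add_smul, one_smul]
        abel
  have hper : ∀ (τ : V l), ∀ q : ℕ, (fun x => A (T, τ) (F x))^[q * m] (y 0) =
      A (0, (q : ℝ) • ((m : ℝ) • τ + d m)) (y 0) := by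
    intro τ q
    induction q with
    | zero =>
      rw [zero_mul]
      simp only [Function.iterate_zero, id_eq, Nat.cast_zero, zero_smul]
      exact (h0 _).symm
    | succ q ih =>
      rw [add_mul, one_mul, add_comm (q * m) m, Function.iterate_add_apply, ih,
        hit τ _ m le_rfl, hαm, hm]
      congr 2
      push_cast
      rw [add_smul (q : ℝ) 1, one_smul]
      abel
  -- the toral directions
  obtain ⟨q, hq⟩ := exists_nat_gt (1 / η)
  have hq0 : 0 < (q : ℝ) := lt_trans (by positivity) hq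
  have hq1 : 1 ≤ q := by exact_mod_cast hq0
  obtain ⟨τ, hτ1, hτ2⟩ := exists_integral_near (d m) m q hm1 hq1
  refine ⟨(T, τ), fun j => ?_, fun j => (hτ1 j).trans ?_, q * m, ?_, ?_⟩
  · show |T j| ≤ η
    rw [hT]
    exact abs_le.2 (ht j)
  · rw [div_le_iff₀ hq0]
    rw [div_lt_iff₀ hη] at hq
    linarith
  · exact Nat.one_le_iff_ne_zero.2 (Nat.mul_ne_zero (by omega) (by omega))
  · rw [hper, hint _ hτ2]

end Pool.Agent.K6.H72.FL
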