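import Mathlib
import Pool.Agent.K6.H72.FL.Act

/-! Closing on sets which are hyperbolic transversally to the orbits of an action of `ℝᵏ × 𝕋ˡ`, with
monotone dynamics along the orbits. -/

set_option autoImplicit false

open scoped Topology ContDiff Manifold
open Set Metric Filter

noncomputable section

namespace Pool.Agent.K6.H72.FL

open Pool.Agent.H718R2.G Pool.Agent.R774.Cl Pool.Agent.R774.ClStmt Pool.Agent.W564.SC

universe u

variable {k l n m : ℕ} {N : Type u} [TopologicalSpace N] [ChartedSpace (V n) N]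

/-- An action of `ℝᵏ × 𝕋ˡ` on `N` of class `C^r`, jointly in both variables: an action `A` of
`ℝᵏ × ℝˡ` for which the vectors `(0, b)`, `b ∈ ℤˡ`, act trivially. -/
structure CrAction (k l n : ℕ) (N : Type u) [TopologicalSpace N] [ChartedSpace (V n) N] (r : ℕ∞)
    (A : V k × V l → N → N) : Prop where
  smooth : ContMDiff (𝓘(ℝ, V k × V l).prod (𝓡 n)) (𝓡 n) r (fun q : (V k × V l) × N => A q.1 q.2)
  zero : ∀ x, A 0 x = x
  add : ∀ p q x, A (p + q) x = A p (A q x)
  integral : ∀ b, Integral b → ∀ x, A (0, b) x = x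

/-- The tangent vector at `x` of the curve `t ↦ A (t p) x`. -/
def tang (A : V k × V l → N → N) (x : N) (p : V k × V l) : V n :=
  dr (V k × V l) (V n) (fun q => A q x) 0 p

/-- `K` is a closed set with `F(K) ⊆ K` on which the action `A` is locally free; near `K` the map `F`
maps the orbits of `A` to orbits by maps of the form
`(s, b) ↦ (ψ₁(s₁), …, ψ_k(s_k), b + c(s))`, `ψ_j` continuous nondecreasing (`LeafMap`); on `K` it is
hyperbolic transversally to the orbits: the quadratic forms `Q_x(v) = B_x (De v, De v)` on the tangent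
spaces (of any signature) do not change in the directions of the orbits, and increase strictly under
`DF` on all vectors which are not tangent to the orbits. Nothing is assumed about the growth of `DF`
along the orbits. -/
structure HypAcrossAct (F : N → N) (A : V k × V l → N → N) (K : Set N) (e : N → V m)
    (B : N → V m →L[ℝ] V m →L[ℝ] ℝ) : Prop where
  closed : IsClosed K
  inv : ∀ x ∈ K, F x ∈ K
  free : ∀ x ∈ K, ∀ p, tang (n := n) A x p = 0 → p = 0
  orbits : ∃ O : Set N, IsOpen O ∧ K ⊆ O ∧ ∀ x ∈ O, LeafMap A F x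
  smooth : ContMDiff (𝓡 n) (𝓡 m) 1 e
  cont : Continuous B
  basic : ∀ x ∈ K, ∀ (v : V n) (p : V k × V l), quad e B x (v + tang A x p) = quad e B x v
  incr : ∀ x ∈ K, ∀ v : V n, (∀ p, v ≠ tang A x p) →
    quad e B x v < quad e B (F x) (dr (V n) (V n) F x v)

/-- the maps of the action -/
def actD {r : ℕ∞} {A : V k × V l → N → N} (h : CrAction k l n N r A) (s : V k × V l) :
    DiffM n N r where
  toFun := A s
  invFun := A (-s)
  left_inv := fun y => by rw [← h.add, neg_add_cancel, h.zero]
  right_inv := fun y => by rw [← h.add, add_neg_cancel, h.zero]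
  contMDiff_toFun := by
    have h1 : ContMDiff (𝓡 n) (𝓘(ℝ, V k × V l).prod (𝓡 n)) r (fun y : N => (s, y)) :=
      contMDiff_const.prodMk contMDiff_id
    exact h.smooth.comp h1
  contMDiff_invFun := by
    have h1 : ContMDiff (𝓡 n) (𝓘(ℝ, V k × V l).prod (𝓡 n)) r (fun y : N => (-s, y)) :=
      contMDiff_const.prodMk contMDiff_id
    exact h.smooth.comp h1

/-- the family of the maps `A s ∘ F` -/
def shiftD {r : ℕ∞} {A : V k × V l → N → N} (h : CrAction k l n N r A) (F : DiffM n N r)
    (s : V k × V l) : DiffM n N r :=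
  F.trans (actD h s)

lemma shiftD_apply {r : ℕ∞} {A : V k × V l → N → N} (h : CrAction k l n N r A) (F : DiffM n N r)
    (s : V k × V l) (y : N) : shiftD h F s y = A s (F y) := rfl

lemma shiftD_zero {r : ℕ∞} {A : V k × V l → N → N} (h : CrAction k l n N r A) (F : DiffM n N r) :
    shiftD h F 0 = F := by
  ext y
  rw [shiftD_apply, h.zero]

lemma shiftD_isFam {r : ℕ∞} {A : V k × V l → N → N} (h : CrAction k l n N r A)
    (F : DiffM n N r) : IsFam n N r (shiftD h F) := by
  intro y
  have h1 : ContMDiff (𝓘(ℝ, V k × V l).prod (𝓡 n)) (𝓘(ℝ, V k × V l).prod (𝓡 n)) r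
      (fun q : (V k × V l) × N => (q.1, F q.2)) :=
    contMDiff_fst.prodMk (F.contMDiff_toFun.comp contMDiff_snd)
  exact (h.smooth.comp h1).contMDiffAt

variable [IsManifold (𝓡 n) ∞ N] [T2Space N] [CompactSpace N]

/-- If, for every `η > 0`, periodic pseudo-orbits of `F` with jumps along the orbits of `A`, of size at
most `η` in the real directions, start arbitrarily close to `z`, then `F` can be closed at `z`. -/
theorem closable_of_leaf_loops (r : ℕ∞) (hr : 1 ≤ r) (F : DiffM n N r) {A : V k × V l → N → N}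
    (hA : CrAction k l n N r A) {z : N}
    (h : ∀ η > 0, ∀ W ∈ 𝓝 z, ∃ (m : ℕ) (y : ℕ → N) (e : ℕ → V k × V l), 1 ≤ m ∧ y 0 ∈ W ∧
      y m = y 0 ∧ ∀ i < m, LeafMap A F (y i) ∧ ‖(e i).1‖ ≤ η ∧ y (i + 1) = A (e i) (F (y i))) :
    Closable n N r F z := by
  have h1 := closable_of_periodic (n := n) (N := N) r hr (shiftD_isFam hA F) (z := z) (by
    intro η hη W hW
    obtain ⟨η', hη', hk, hl⟩ : ∃ η' : ℝ, 0 < η' ∧ k * η' < η ∧ l * η' < η := by
      refine ⟨η / (2 * (k + l + 1)), by positivity, ?_, ?_⟩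
      · rw [← mul_div_assoc, div_lt_iff₀ (by positivity)]
        have h1 : (0 : ℝ) ≤ k := Nat.cast_nonneg k
        have h2 : (0 : ℝ) ≤ l := Nat.cast_nonneg l
        nlinarith
      · rw [← mul_div_assoc, div_lt_iff₀ (by positivity)]
        have h1 : (0 : ℝ) ≤ k := Nat.cast_nonneg k
        have h2 : (0 : ℝ) ≤ l := Nat.cast_nonneg l
        nlinarith
    obtain ⟨m, y, e, hm, hy0, hym, hy⟩ := h η' hη' W hW
    obtain ⟨t, ht1, ht2, M, hM, hper⟩ := close_leaf_loop (N := N) (A := A) hA.zero hA.add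
      hA.integral (F := F) (m := m) hm (y := y) (e := e) hη' (fun i hi => (hy i hi).1)
      (fun i hi => (hy i hi).2.1) (fun i hi => (hy i hi).2.2) hym
    refine ⟨t, ?_, y 0, hy0, M, hM, hper⟩
    rw [Prod.norm_def]
    exact max_lt ((norm_le_of_coord hη'.le ht1).trans_lt hk)
      ((norm_le_of_coord hη'.le ht2).trans_lt hl))
  rwa [shiftD_zero] at h1

/-- Periodic pseudo-orbits in `K` are shadowed by periodic pseudo-orbits with small jumps along the
orbits of the action. -/
theorem exists_leaf_loop (r : ℕ∞) (hr : 1 ≤ r) (F : DiffM n N r) {A : V k × V l → N → N}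
    (hA : CrAction k l n N r A) {K : Set N} {e : N → V m} {B : N → V m →L[ℝ] V m →L[ℝ] ℝ}
    (h : HypAcrossAct (n := n) F A K e B) {z : N} (hz : ChainRecOn F K z) {η : ℝ} (hη : 0 < η)
    {W : Set N} (hW : W ∈ 𝓝 z) :
    ∃ (q : ℕ) (y : ℕ → N) (s : ℕ → V k × V l), 1 ≤ q ∧ y 0 ∈ W ∧
      y q = y 0 ∧ ∀ i < q, LeafMap A F (y i) ∧ ‖(s i).1‖ ≤ η ∧ y (i + 1) = A (s i) (F (y i)) := by
  have hzK : z ∈ K := by
    obtain ⟨m, x, _, h0, _, h2, _⟩ := hz univ isOpen_univ (fun _ => trivial)
    rw [← h0]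
    exact h2 0 (Nat.zero_le _)
  obtain ⟨O, hO, hKO, hOrb⟩ := h.orbits
  have hr1 : (1 : WithTop ℕ∞) ≤ (r : WithTop ℕ∞) := by exact_mod_cast hr
  have hΦ : Act (E := V n) A := ⟨hA.smooth.of_le hr1, hA.zero⟩
  have hF1 : ContMDiff (𝓡 n) (𝓡 n) 1 F := F.contMDiff_toFun.of_le hr1
  obtain ⟨M, d, hd1, hd2, -⟩ := exists_embedding_euclidean_of_compact (I := 𝓡 n) (M := N)
  obtain ⟨δ, hδ, hcl⟩ := closing (E := V n) (T := V k × V l) hΦ hF1 h.cont h.smooth
    (d := d) hd1.continuous hd2.injective h.closed h.inv h.free h.basic h.incr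
    (Q := fun x y s => y ∈ O ∧ ‖s‖ < η ∧ (x = z → y ∈ W))
    (by
      intro x hx
      have e1 : ∀ᶠ q : N × N × (V k × V l) in 𝓝 (x, x, (0 : V k × V l)), q.2.1 ∈ O := by
        have h1 : Continuous (fun q : N × N × (V k × V l) => q.2.1) :=
          continuous_fst.comp continuous_snd
        exact (h1.tendsto (x, x, (0 : V k × V l))).eventually (hO.mem_nhds (hKO hx))
      have e2 : ∀ᶠ q : N × N × (V k × V l) in 𝓝 (x, x, (0 : V k × V l)), ‖q.2.2‖ < η := by
        have h1 : Continuous (fun q : N × N × (V k × V l) => ‖q.2.2‖) :=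
          (continuous_snd.comp continuous_snd).norm
        have h2 := h1.tendsto (x, x, (0 : V k × V l))
        simp only [norm_zero] at h2
        exact h2.eventually (gt_mem_nhds hη)
      have e3 : ∀ᶠ q : N × N × (V k × V l) in 𝓝 (x, x, (0 : V k × V l)),
          (q.1 = z → q.2.1 ∈ W) := by
        by_cases hxz : x = z
        · have h1 : Continuous (fun q : N × N × (V k × V l) => q.2.1) :=
            continuous_fst.comp continuous_snd
          have hW2 : W ∈ 𝓝 x := by rw [hxz]; exact hW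
          filter_upwards [(h1.tendsto (x, x, (0 : V k × V l))).eventually hW2] with q hq _
          exact hq
        · have h1 : Continuous (fun q : N × N × (V k × V l) => q.1) := continuous_fst
          filter_upwards [(h1.tendsto (x, x, (0 : V k × V l))).eventually
            (isOpen_ne.mem_nhds hxz)] with q hq h2
          exact absurd h2 hq
      filter_upwards [e1, e2, e3] with q h1 h2 h3
      exact ⟨h1, h2, h3⟩)
  obtain ⟨m', x, hm', hx0, hxm, hxK, hxW⟩ := hz {q | ‖d q.2 - d q.1‖ < δ}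
    (isOpen_lt ((hd1.continuous.comp continuous_snd).sub
      (hd1.continuous.comp continuous_fst)).norm continuous_const)
    (fun x => by simpa using hδ)
  have : NeZero m' := ⟨by omega⟩
  obtain ⟨y, s, hys, hQ⟩ := hcl m' (fun i => x i.val)
    (fun i => hxK _ (ZMod.val_lt i).le) (fun i => by
      have h1 := hxW i.val (ZMod.val_lt i)
      rw [wrap (hxm.trans hx0.symm) i]
      exact h1)
  refine ⟨m', fun i => y (i : ZMod m'), fun i => s (i : ZMod m'), hm', ?_, by simp, fun i _ => ?_⟩
  · have h1 := (hQ 0).2.2 (by rw [ZMod.val_zero, hx0])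
    simpa using h1
  · refine ⟨hOrb _ (hQ _).1, ?_, ?_⟩
    · have h1 := (hQ (i : ZMod m')).2.1
      rw [Prod.norm_def] at h1
      exact ((le_max_left _ _).trans_lt h1).le
    · simp only [Nat.cast_add, Nat.cast_one]
      exact (hys _).symm

/-- `y` lies in a closed set which is hyperbolic for `F` transversally to the orbits of an action of
some `ℝᵏ × 𝕋ˡ` of class `C^r`, with monotone dynamics along the orbits, and `y` is chain recurrent in
this set. -/
def IsHypAcrossAct (r : ℕ∞) (F : N → N) (y : N) : Prop :=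
  ∃ (k l m : ℕ) (A : V k × V l → N → N) (K : Set N) (e : N → V m)
    (B : N → V m →L[ℝ] V m →L[ℝ] ℝ),
    CrAction k l n N r A ∧ HypAcrossAct (n := n) F A K e B ∧ ChainRecOn F K y

theorem closable_hypAcrossAct (r : ℕ∞) (hr : 1 ≤ r) (F : DiffM n N r) {z : N}
    (h : IsHypAcrossAct (n := n) r F z) : Closable n N r F z := by
  obtain ⟨k, l, m, A, K, e, B, hA, hK, hz⟩ := h
  exact closable_of_leaf_loops r hr F hA fun η hη W hW => exists_leaf_loop r hr F hA hK hz hη hW

theorem main_act (r : ℕ∞) (hr : 1 ≤ r) (F : DiffM n N r) (z : N)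
    (h : ∀ U : Set (DiffM n N r), IsOpen[strongTop n N r] U → F ∈ U →
      ∃ F' ∈ U, z ∈ closure {y | IsHypAcrossAct (n := n) r F' y}) :
    Closable n N r F z := by
  refine Pool.Agent.TH382.HS.closable_of_limit F z fun U hU hFU => ?_
  obtain ⟨F', hF', hz⟩ := h U hU hFU
  exact ⟨F', hF', closure_mono (fun y hy => closable_hypAcrossAct r hr F' hy) hz⟩

end Pool.Agent.K6.H72.FL
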